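import Mathlib
import Pool.Agent.Lib.MP_d9da44_co.FC.Hall

set_option autoImplicit false

namespace Pool.Agent.Results.MP_d9da44_co.FourBases

/-- Let `e i`, `i ∈ s`, be a finite family of vectors of `F_3^n` such that for every proper
subspace `F` at least `4 codim F` of the vectors lie outside `F` (for instance the union of any
four bases of `F_3^n`).  Then every vector of `F_3^n` is the sum of a subfamily. -/
theorem result (n : ℕ) (ι : Type) (s : Finset ι) (e : ι → (Fin n → ZMod 3))
    (he : ∀ F : Submodule (ZMod 3) (Fin n → ZMod 3), F ≠ ⊤ →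
      4 * Module.finrank (ZMod 3) ((Fin n → ZMod 3) ⧸ F) ≤
        Set.ncard {i | i ∈ s ∧ e i ∉ F}) (v : Fin n → ZMod 3) :
    ∃ t ⊆ s, ∑ i ∈ t, e i = v := by
  classical
  refine Pool.Agent.Lib.MP_d9da44_co.FC.hall n (Fin n → ZMod 3) (by simp) ι s e ?_ v
  intro F hF
  refine (he F hF).trans (le_of_eq ?_)
  rw [← Set.ncard_coe_finset]
  congr 1
  ext i
  simp

end Pool.Agent.Results.MP_d9da44_co.FourBases
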