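import Mathlib
import Pool.Agent.Lib.MP_d9da44_co.LogStarRec

set_option autoImplicit false

namespace Pool.Agent.Results.MP_d9da44_co.LogStar

/-- The tower `2^40, 2^(2^40), 2^(2^(2^40)), ...`: `tower 0 = 2^40`, `tower (j+1) = 2^(tower j)`. -/
def tower : ℕ → ℕ
  | 0 => 2 ^ 40
  | j + 1 => 2 ^ tower j

theorem tower_eq (j : ℕ) : tower j = LogStar.tow (2 ^ 40) j := by
  induction j with
  | zero => rfl
  | succ j ih => exact congrArg (fun t => 2 ^ t) ih

theorem base42 {ι V : Type*} [AddCommGroup V] [Module (ZMod 3) V] [Finite V] (e : ι → V) :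
    LogStar.Comp e ((42 : ℕ) : ℝ) (2 ^ 40) := by
  apply LogStar.comp_base (by norm_num)
  apply LogStar.base_num
  push_cast
  norm_num

/-- For every `j` and every `n ≤ tower j`, any `58 * 2^j - 16` cubes in `F_3^n` sum to `F_3^n`.
(For `j = 1`: any `100` cubes, for every `n ≤ 2^(2^40)`.) -/
theorem result (j n : ℕ) (hn : n ≤ tower j)
    (T : Fin (58 * 2 ^ j - 16) → ((Fin n → ZMod 3) ≃ₗ[ZMod 3] (Fin n → ZMod 3)))
    (v : Fin n → ZMod 3) :
    ∃ x : Fin (58 * 2 ^ j - 16) → Fin n → ZMod 3,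
      (∀ i m, x i m = 0 ∨ x i m = 1) ∧ ∑ i, T i (x i) = v := by
  apply LogStar.cubes_of_comp T
  intro e
  have h := LogStar.comp_tow e 42 (2 ^ 40) (by norm_num) (base42 e) j
  have h2 : (((42 + 16) * 2 ^ j - 16 : ℕ) : ℝ) = ((58 * 2 ^ j - 16 : ℕ) : ℝ) := by norm_num
  rw [h2] at h
  rw [tower_eq] at hn
  exact h.mono hn

end Pool.Agent.Results.MP_d9da44_co.LogStar
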