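import Mathlib
import Pool.Agent.Lib.MP_d9da44_co.Circuits

set_option autoImplicit false

namespace Pool.Agent.Results.MP_d9da44_co.ShortCircuits

open Finset CubeSum

/-- Elementary estimate: `(1 - 1/k)^(2k)` is at least `1/9` for `k ≥ 12`. -/
theorem pow_bound (k : ℕ) (hk : 12 ≤ k) : (1 : ℝ) / 9 ≤ ((1 - 1 / (k : ℝ)) * (1 - 1 / (k : ℝ))) ^ k := by
  obtain ⟨r, rfl⟩ : ∃ r, k = r + 1 := ⟨k - 1, by omega⟩
  have hr : (11 : ℝ) ≤ r := by
    have : 11 ≤ r := by omega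
    exact_mod_cast this
  have hr0 : (0 : ℝ) < r := by linarith
  have hr1 : (0 : ℝ) < (r : ℝ) + 1 := by linarith
  have h1 : (1 - 1 / (((r + 1 : ℕ) : ℝ))) = (1 + 1 / (r : ℝ))⁻¹ := by
    push_cast
    field_simp
    ring
  rw [h1]
  have h2 : (1 + 1 / (r : ℝ)) ≤ Real.exp (1 / (r : ℝ)) := by
    have := Real.add_one_le_exp (1 / (r : ℝ))
    linarith
  have h3 : (1 + 1 / (r : ℝ)) ^ r ≤ Real.exp 1 := by
    calc (1 + 1 / (r : ℝ)) ^ r ≤ (Real.exp (1 / (r : ℝ))) ^ r :=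
          pow_le_pow_left₀ (by positivity) h2 r
      _ = Real.exp 1 := by
          rw [← Real.exp_nat_mul]
          congr 1
          field_simp
  have h4 : (1 + 1 / (r : ℝ)) ≤ 12 / 11 := by
    have : 1 / (r : ℝ) ≤ 1 / 11 := one_div_le_one_div_of_le (by norm_num) hr
    linarith
  have h5 : (1 + 1 / (r : ℝ)) ^ (r + 1) ≤ 3 := by
    rw [pow_succ]
    have he : Real.exp 1 < 2.7182818286 := Real.exp_one_lt_d9
    have h6 : (0 : ℝ) ≤ (1 + 1 / (r : ℝ)) ^ r := by positivity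
    have h7 : (0 : ℝ) ≤ 1 + 1 / (r : ℝ) := by positivity
    calc (1 + 1 / (r : ℝ)) ^ r * (1 + 1 / (r : ℝ)) ≤ 2.7182818286 * (12 / 11) := by
          apply mul_le_mul (h3.trans he.le) h4 h7 (by norm_num)
      _ ≤ 3 := by norm_num
  have h8 : (0 : ℝ) < (1 + 1 / (r : ℝ)) ^ (r + 1) := by positivity
  have h9 : ((1 + 1 / (r : ℝ))⁻¹ * (1 + 1 / (r : ℝ))⁻¹) ^ (r + 1)
      = ((1 + 1 / (r : ℝ)) ^ (r + 1))⁻¹ * ((1 + 1 / (r : ℝ)) ^ (r + 1))⁻¹ := by
    rw [mul_pow, inv_pow]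
  rw [h9]
  have h10 : (1 : ℝ) / 3 ≤ ((1 + 1 / (r : ℝ)) ^ (r + 1))⁻¹ := by
    rw [one_div]
    exact inv_anti₀ h8 h5
  nlinarith

/-- Let `A_1, ..., A_k` be cubes in `F_3^n` given by bases such that each vector of each of these
bases is a linear combination of at most `D` vectors of each other basis.  If
`18 k^2 D ≤ 2^k`, then `A_1 + ... + A_k = F_3^n`, for all `n`. -/
theorem result (k n D : ℕ) (hk : 1 ≤ k) (hD : 18 * k ^ 2 * D ≤ 2 ^ k)
    (T : Fin k → ((Fin n → ZMod 3) ≃ₗ[ZMod 3] (Fin n → ZMod 3)))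
    (hT : ∀ i j : Fin k, ∀ l : Fin n,
      (Finset.univ.filter
        (fun m : Fin n => (T i).symm (T j (Pi.single l 1)) m ≠ 0)).card ≤ D)
    (v : Fin n → ZMod 3) :
    ∃ x : Fin k → Fin n → ZMod 3, (∀ i j, x i j = 0 ∨ x i j = 1) ∧ ∑ i, T i (x i) = v := by
  classical
  have i0 : Fin k := ⟨0, by omega⟩
  rcases Nat.eq_zero_or_pos n with hn | hn
  · subst hn
    exact ⟨fun _ _ => 0, fun _ _ => Or.inl rfl, Subsingleton.elim _ _⟩
  have hD1 : 1 ≤ D := by
    have h1 := hT i0 i0 ⟨0, hn⟩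
    have h2 : (Finset.univ.filter
        (fun m : Fin n => (T i0).symm (T i0 (Pi.single ⟨0, hn⟩ 1)) m ≠ 0)).Nonempty := by
      refine ⟨⟨0, hn⟩, ?_⟩
      rw [Finset.mem_filter]
      refine ⟨mem_univ _, ?_⟩
      rw [LinearEquiv.symm_apply_apply, Pi.single_eq_same]
      exact one_ne_zero
    exact (Finset.card_pos.2 h2).trans_le h1
  have hk12 : 12 ≤ k := by
    by_contra hcon
    have hk11 : k ≤ 11 := by omega
    have h1 : 18 * k ^ 2 ≤ 2 ^ k := le_trans (Nat.le_mul_of_pos_right _ hD1) hD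
    interval_cases k <;> omega
  have hkR : (12 : ℝ) ≤ k := by exact_mod_cast hk12
  have hk0 : (0 : ℝ) < k := by linarith
  have hDR : (1 : ℝ) ≤ D := by exact_mod_cast hD1
  set z : ℝ := 1 - 1 / (k : ℝ) with hz
  have hinv : 1 / (k : ℝ) ≤ 1 / 12 := one_div_le_one_div_of_le (by norm_num) hkR
  have hinv0 : 0 < 1 / (k : ℝ) := by positivity
  have hz11 : 11 / 12 ≤ z := by rw [hz]; linarith
  have hz1 : z ≤ 1 := by rw [hz]; linarith
  have h2z : 1 ≤ 2 * z * z := by nlinarith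
  have hpow : (2 : ℝ) ^ k / 9 ≤ (2 * z * z) ^ k := by
    have h1 := pow_bound k hk12
    rw [← hz] at h1
    have h2 : (2 * z * z) ^ k = 2 ^ k * (z * z) ^ k := by rw [← mul_pow]; ring_nf
    rw [h2]
    have h3 : (0 : ℝ) < 2 ^ k := by positivity
    calc (2 : ℝ) ^ k / 9 = 2 ^ k * (1 / 9) := by ring
      _ ≤ 2 ^ k * (z * z) ^ k := mul_le_mul_of_nonneg_left h1 h3.le
  have hDR2 : (18 : ℝ) * (k : ℝ) ^ 2 * D ≤ 2 ^ k := by exact_mod_cast hD
  have hkey : 2 * (k : ℝ) ^ 2 * D ≤ (2 * z * z) ^ k := by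
    refine le_trans ?_ hpow
    linarith
  have hpos : 0 < (2 * z * z) ^ k := by positivity
  set x : ℝ := ((2 * z * z)⁻¹) ^ k with hx
  have hxeq : x = ((2 * z * z) ^ k)⁻¹ := by rw [hx, inv_pow]
  have hxle : 2 * (k : ℝ) ^ 2 * D * x ≤ 1 := by
    rw [hxeq]
    exact (mul_inv_le_iff₀ hpos).2 (by linarith)
  have hx0 : 0 ≤ x := by rw [hx]; positivity
  obtain ⟨s, hs⟩ := good_signs T i0 D (fun i e => by
      have := hT i e.1 e.2
      exact this) z (1 / (2 * k * D)) x (by linarith) (by linarith) (by positivity)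
      (by
        rw [hz]
        have : 2 * (D : ℝ) * (1 / (2 * k * D)) = 1 / k := by field_simp
        rw [this]
        linarith)
      hx h2z
      (by
        rw [le_div_iff₀ (by positivity)]
        have h1 : x * (2 * k * D) ≤ 2 * (k : ℝ) ^ 2 * D * x := by
          have h2 : (k : ℝ) ≤ (k : ℝ) ^ 2 := by nlinarith
          have h3 : 0 ≤ (D : ℝ) * x := by positivity
          nlinarith
        linarith)
      (by
        have h1 : 2 - 2 * z = 2 / k := by rw [hz]; ring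
        rw [h1, le_div_iff₀ hk0]
        have h3 : 0 ≤ (D : ℝ) * x := by positivity
        have h4 : 0 ≤ (k : ℝ) ^ 2 * (D * x) := by positivity
        calc 2 * k * D * (2 * z * x) * k = (2 * (2 * (k : ℝ) ^ 2 * D * x)) * z := by ring
          _ ≤ (2 * 1) * 1 := by
              apply mul_le_mul (by linarith) hz1 (by linarith) (by norm_num)
          _ = 2 := by norm_num)
  exact sum_of_signs T s hs v

end Pool.Agent.Results.MP_d9da44_co.ShortCircuits
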