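import Mathlib

set_option autoImplicit false

open MvPolynomial

namespace Pool.Agent.Results.MP_d9da44_co.WeightComparison

section Exact

set_option linter.unusedSectionVars false

variable {K : Type*} [Field K] {σ : Type*} [Fintype σ] [DecidableEq σ]

/-- The linear form with coefficient vector `e`. -/
noncomputable def lin (e : σ → K) : MvPolynomial σ K := ∑ i, C (e i) * X i

/-- `p ↦ p (X + t h)`, a polynomial in `t`. -/
noncomputable def shift (h : σ → K) : MvPolynomial σ K →ₐ[K] Polynomial (MvPolynomial σ K) :=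
  aeval (fun i => Polynomial.C (X i) + Polynomial.C (C (h i)) * Polynomial.X)

lemma shift_C (h : σ → K) (a : K) : shift h (C a) = Polynomial.C (C a) := by
  rw [shift, ← MvPolynomial.algebraMap_eq, AlgHom.commutes]
  rfl

lemma shift_X (h : σ → K) (i : σ) :
    shift h (X i) = Polynomial.C (X i) + Polynomial.C (C (h i)) * Polynomial.X := by
  rw [shift, aeval_X]

lemma shift_lin (h e : σ → K) :
    shift h (lin e) = Polynomial.C (lin e) + Polynomial.C (C (e ⬝ᵥ h)) * Polynomial.X := by
  rw [lin, map_sum, map_sum]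
  simp only [map_mul, shift_C, shift_X, mul_add, Finset.sum_add_distrib]
  congr 1
  rw [dotProduct, map_sum, map_sum, Finset.sum_mul]
  refine Finset.sum_congr rfl fun i _ => ?_
  rw [map_mul, map_mul, mul_assoc]

lemma lin_ne_zero {e : σ → K} (he : e ≠ 0) : lin e ≠ 0 := by
  intro h0
  apply he
  funext k
  have := congrArg (MvPolynomial.aeval (R := K) (Pi.single k (1 : K))) h0
  rw [lin, map_sum, map_zero] at this
  simp only [map_mul, aeval_X, aeval_C, Pi.single_apply, mul_ite, mul_one, mul_zero,
    Finset.sum_ite_eq', Finset.mem_univ, if_true] at this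
  simpa using this

lemma eval_shift_zero (h : σ → K) (p : MvPolynomial σ K) :
    Polynomial.eval 0 (shift h p) = p := by
  have : ((Polynomial.aeval (R := MvPolynomial σ K) (0 : MvPolynomial σ K)).restrictScalars K).comp
      (shift h) = AlgHom.id K (MvPolynomial σ K) := by
    apply MvPolynomial.algHom_ext
    intro i
    simp [shift_X]
  have := congrArg (fun f => f p) this
  simpa [Polynomial.coe_aeval_eq_eval] using this

lemma const_of_natDegree (p : MvPolynomial σ K) (hp : ∀ h : σ → K, (shift h p).natDegree = 0) :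
    ∃ a : K, p = C a := by
  have hC : ∀ h : σ → K, shift h p = Polynomial.C p := by
    intro h
    obtain ⟨q, hq⟩ := Polynomial.natDegree_eq_zero.1 (hp h)
    have := eval_shift_zero h p
    rw [← hq, Polynomial.eval_C] at this
    rw [← hq, this]
  have h1 : ∀ i : σ, aeval (fun k => if k = i then 0 else (X k : MvPolynomial σ K)) p = p := by
    intro i
    have e1 : ((Polynomial.aeval (R := MvPolynomial σ K) (-X i : MvPolynomial σ K)).restrictScalars
        K).comp (shift (Pi.single i 1)) =
        aeval (fun k => if k = i then 0 else (X k : MvPolynomial σ K)) := by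
      apply MvPolynomial.algHom_ext
      intro k
      by_cases hk : k = i
      · subst hk; simp [shift_X]
      · simp [shift_X, hk]
    rw [← e1, AlgHom.comp_apply, hC]
    simp
  have h2 : ∀ s : Finset σ, aeval (fun k => if k ∈ s then 0 else (X k : MvPolynomial σ K)) p = p := by
    intro s
    induction s using Finset.induction_on with
    | empty => simp
    | insert i s _ ih =>
      have e2 : aeval (fun k => if k ∈ insert i s then 0 else (X k : MvPolynomial σ K)) =
          (aeval (fun k => if k ∈ s then 0 else (X k : MvPolynomial σ K))).comp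
            (aeval (fun k => if k = i then 0 else (X k : MvPolynomial σ K))) := by
        apply MvPolynomial.algHom_ext
        intro k
        by_cases hk : k = i
        · simp [hk]
        · simp [hk]
      rw [e2, AlgHom.comp_apply, h1 i, ih]
  have h3 := h2 Finset.univ
  simp only [Finset.mem_univ, if_true] at h3
  refine ⟨constantCoeff p, ?_⟩
  have h4 := MvPolynomial.aeval_zero' (R := K) (S₁ := MvPolynomial σ K) p
  rw [h3] at h4
  rw [h4]
  simp [MvPolynomial.algebraMap_eq]

/-- Products of the linear forms of subfamilies of `J`. -/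
def prods {ι : Type*} [DecidableEq ι] (J : Finset ι) (e : ι → σ → K) : Set (MvPolynomial σ K) :=
  {q | ∃ T : Finset ι, T ⊆ J ∧ q = ∏ j ∈ T, lin (e j)}

variable {ι : Type*} [DecidableEq ι] [DecidableEq K]

lemma natDegree_shift_lin_le (h e : σ → K) :
    (shift h (lin e)).natDegree ≤ if e ⬝ᵥ h ≠ 0 then 1 else 0 := by
  rw [shift_lin]
  split_ifs with hc
  · refine (Polynomial.natDegree_add_le _ _).trans ?_
    rw [Polynomial.natDegree_C]
    refine max_le (Nat.zero_le _) ((Polynomial.natDegree_C_mul_le _ _).trans ?_)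
    exact Polynomial.natDegree_X_le
  · rw [not_not] at hc
    simp [hc]

lemma natDegree_shift_lin {h e : σ → K} (he : e ⬝ᵥ h ≠ 0) :
    (shift h (lin e)).natDegree = 1 := by
  rw [shift_lin, add_comm]
  exact Polynomial.natDegree_linear (by simpa using he)

lemma natDegree_shift_prod (h : σ → K) (e : ι → σ → K) (T : Finset ι) :
    (shift h (∏ j ∈ T, lin (e j))).natDegree ≤ (T.filter (fun j => e j ⬝ᵥ h ≠ 0)).card := by
  rw [map_prod, Finset.card_filter]
  exact (Polynomial.natDegree_prod_le _ _).trans
    (Finset.sum_le_sum fun j _ => natDegree_shift_lin_le h (e j))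

lemma natDegree_shift_span (h : σ → K) (e : ι → σ → K) (J : Finset ι) {p : MvPolynomial σ K}
    (hp : p ∈ Submodule.span K (prods J e)) :
    (shift h p).natDegree ≤ (J.filter (fun j => e j ⬝ᵥ h ≠ 0)).card := by
  induction hp using Submodule.span_induction with
  | mem x hx =>
    obtain ⟨T, hT, rfl⟩ := hx
    exact (natDegree_shift_prod h e T).trans
      (Finset.card_le_card (Finset.filter_subset_filter _ hT))
  | zero => simp
  | add x y _ _ hx hy =>
    rw [map_add]
    exact (Polynomial.natDegree_add_le _ _).trans (max_le hx hy)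
  | smul a x _ hx =>
    rw [map_smul]
    exact (Polynomial.natDegree_smul_le _ _).trans hx

/-- The projection killing the form `lin e0`. -/
noncomputable def proj (e0 c : σ → K) : MvPolynomial σ K →ₐ[K] MvPolynomial σ K :=
  aeval (fun i => X i - C (c i) * lin e0)

lemma proj_lin (e0 c e : σ → K) :
    proj e0 c (lin e) = lin (e - (e ⬝ᵥ c) • e0) := by
  have h1 : lin (e - (e ⬝ᵥ c) • e0) = lin e - C (e ⬝ᵥ c) * lin e0 := by
    simp only [lin, Pi.sub_apply, Pi.smul_apply, smul_eq_mul, map_sub, map_mul, sub_mul,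
      Finset.sum_sub_distrib, Finset.mul_sum, mul_assoc]
  rw [h1]
  conv_lhs => rw [lin, map_sum]
  simp only [map_mul, proj, aeval_X, mul_sub]
  simp only [algHom_C, MvPolynomial.algebraMap_eq, Finset.sum_sub_distrib]
  congr 1
  rw [dotProduct, map_sum, Finset.sum_mul]
  refine Finset.sum_congr rfl fun i _ => ?_
  rw [map_mul, mul_assoc]

lemma proj_sub_dvd (e0 c : σ → K) (p : MvPolynomial σ K) : lin e0 ∣ p - proj e0 c p := by
  rw [← Ideal.mem_span_singleton, ← Ideal.Quotient.eq]
  have : (Ideal.Quotient.mkₐ K (Ideal.span {lin e0})) =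
      (Ideal.Quotient.mkₐ K (Ideal.span {lin e0})).comp (proj e0 c) := by
    apply MvPolynomial.algHom_ext
    intro i
    rw [AlgHom.comp_apply, proj, aeval_X, map_sub, map_mul]
    have h0 : (Ideal.Quotient.mkₐ K (Ideal.span {lin e0})) (lin e0) = 0 := by
      simp
    rw [h0, mul_zero, sub_zero]
  exact congrArg (fun f => f p) this

lemma shift_proj (e0 c h : σ → K) (p : MvPolynomial σ K) :
    shift h (proj e0 c p) =
      Polynomial.map (proj e0 c).toRingHom (shift (h - (e0 ⬝ᵥ h) • c) p) := by
  have : (shift h).comp (proj e0 c) =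
      (Polynomial.mapAlgHom (proj e0 c)).comp (shift (h - (e0 ⬝ᵥ h) • c)) := by
    apply MvPolynomial.algHom_ext
    intro i
    have hX : (proj e0 c) (X i) = X i - C (c i) * lin e0 := by rw [proj, aeval_X]
    have hCC : ∀ a : K, (proj e0 c) (C a) = C a := fun a => by
      rw [algHom_C, MvPolynomial.algebraMap_eq]
    rw [AlgHom.comp_apply, AlgHom.comp_apply, hX, map_sub, map_mul, shift_lin, shift_C,
      shift_X, shift_X]
    rw [Polynomial.coe_mapAlgHom, Polynomial.map_add, Polynomial.map_mul, Polynomial.map_C,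
      Polynomial.map_C, Polynomial.map_X]
    rw [RingHom.coe_coe, hX, hCC]
    simp only [Pi.sub_apply, Pi.smul_apply, smul_eq_mul, map_sub, map_mul]
    ring
  exact congrArg (fun f => f p) this

theorem exact_span (J : Finset ι) : ∀ (e : ι → σ → K) (p : MvPolynomial σ K),
    (∀ h : σ → K, (shift h p).natDegree ≤ (J.filter (fun j => e j ⬝ᵥ h ≠ 0)).card) →
    p ∈ Submodule.span K (prods J e) := by
  induction J using Finset.induction_on with
  | empty =>
    intro e p hp
    obtain ⟨a, rfl⟩ := const_of_natDegree p (fun h => by simpa using hp h)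
    have : (C a : MvPolynomial σ K) = a • 1 := by
      rw [MvPolynomial.smul_eq_C_mul, mul_one]
    rw [this]
    exact Submodule.smul_mem _ _ (Submodule.subset_span ⟨∅, subset_rfl, by simp⟩)
  | insert j0 J hj0 ih =>
    intro e p hp
    have hmono : ∀ e' : ι → σ → K, prods J e' ⊆ prods (insert j0 J) e' := by
      rintro e' _ ⟨T, hT, rfl⟩
      exact ⟨T, hT.trans (Finset.subset_insert _ _), rfl⟩
    by_cases he : e j0 = 0
    · refine Submodule.span_mono (hmono e) (ih e p fun h => ?_)
      have := hp h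
      rwa [Finset.filter_insert, if_neg (by simp [he])] at this
    · obtain ⟨k, hk⟩ := Function.ne_iff.1 he
      set c : σ → K := Pi.single k (e j0 k)⁻¹ with hc
      have hec : e j0 ⬝ᵥ c = 1 := by
        rw [hc, dotProduct_single, mul_inv_cancel₀ hk]
      have hdot : ∀ j h, (e j - (e j ⬝ᵥ c) • e j0) ⬝ᵥ h = e j ⬝ᵥ (h - (e j0 ⬝ᵥ h) • c) := by
        intro j h
        rw [sub_dotProduct, smul_dotProduct, dotProduct_sub, dotProduct_smul, smul_eq_mul,
          smul_eq_mul, mul_comm]
      have h1 := ih (fun j => e j - (e j ⬝ᵥ c) • e j0) (proj (e j0) c p) (fun h => by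
        rw [shift_proj]
        refine (Polynomial.natDegree_map_le).trans ((hp _).trans ?_)
        rw [Finset.filter_insert, if_neg]
        · simp only [hdot]; exact le_rfl
        · rw [← hdot]; simp [hec])
      have h2 : Submodule.span K (prods J (fun j => e j - (e j ⬝ᵥ c) • e j0)) ≤
          (Submodule.span K (prods J e)).map (proj (e j0) c).toLinearMap := by
        rw [Submodule.map_span]
        refine Submodule.span_mono ?_
        rintro _ ⟨T, hT, rfl⟩
        refine ⟨∏ j ∈ T, lin (e j), ⟨T, hT, rfl⟩, ?_⟩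
        rw [AlgHom.toLinearMap_apply, map_prod]
        exact Finset.prod_congr rfl fun j _ => proj_lin _ _ _
      obtain ⟨p1, hp1, hp1'⟩ := h2 h1
      rw [AlgHom.toLinearMap_apply] at hp1'
      obtain ⟨q, hq⟩ : lin (e j0) ∣ p - p1 := by
        have := proj_sub_dvd (e j0) c (p - p1)
        rwa [map_sub, hp1', sub_self, sub_zero] at this
      have hq2 : q ∈ Submodule.span K (prods J e) := by
        apply ih e q
        intro h
        by_cases hq0 : q = 0
        · simp [hq0]
        have hdeg : (shift h (p - p1)).natDegree ≤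
            ((insert j0 J).filter (fun j => e j ⬝ᵥ h ≠ 0)).card := by
          rw [map_sub]
          refine (Polynomial.natDegree_sub_le _ _).trans (max_le (hp h) ?_)
          exact natDegree_shift_span h e _ (Submodule.span_mono (hmono e) hp1)
        have hinj : ∀ r : MvPolynomial σ K, r ≠ 0 → shift h r ≠ 0 := by
          intro r hr h0
          apply hr
          rw [← eval_shift_zero h r, h0, Polynomial.eval_zero]
        rw [hq, map_mul, Polynomial.natDegree_mul (hinj _ (lin_ne_zero he)) (hinj _ hq0)] at hdeg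
        rw [Finset.filter_insert] at hdeg
        split_ifs at hdeg with hh
        · rw [Finset.card_insert_of_notMem (by simp [hj0]), natDegree_shift_lin hh] at hdeg
          omega
        · omega
      have hp' : p = p1 + lin (e j0) * q := by rw [← hq]; ring
      rw [hp']
      refine Submodule.add_mem _ (Submodule.span_mono (hmono e) hp1) ?_
      have h3 : (Submodule.span K (prods J e)).map (LinearMap.mulLeft K (lin (e j0))) ≤
          Submodule.span K (prods (insert j0 J) e) := by
        rw [Submodule.map_span]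
        refine Submodule.span_mono ?_
        rintro _ ⟨_, ⟨T, hT, rfl⟩, rfl⟩
        refine ⟨insert j0 T, Finset.insert_subset_insert _ hT, ?_⟩
        rw [Finset.prod_insert (fun hh => hj0 (hT hh)), LinearMap.mulLeft_apply]
      exact h3 ⟨q, hq2, rfl⟩

end Exact


section Group

variable {σ : Type*} [Fintype σ] [DecidableEq σ]

/-- The group algebra of `F_3^n` over `F_3`. -/
abbrev GA (σ : Type*) := AddMonoidAlgebra (ZMod 3) (σ → ZMod 3)

/-- The group element `e` of the group algebra. -/
noncomputable def gr (e : σ → ZMod 3) : GA σ := AddMonoidAlgebra.single e 1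

lemma gr_add (e f : σ → ZMod 3) : gr (e + f) = gr e * gr f := by
  rw [gr, gr, gr, AddMonoidAlgebra.single_mul_single, mul_one]

lemma gr_zero : gr (0 : σ → ZMod 3) = 1 := rfl

lemma gr_sum {α : Type*} (s : Finset α) (f : α → σ → ZMod 3) :
    gr (∑ a ∈ s, f a) = ∏ a ∈ s, gr (f a) := by
  classical
  induction s using Finset.induction_on with
  | empty => simp [gr_zero]
  | insert a s ha ih => rw [Finset.sum_insert ha, Finset.prod_insert ha, gr_add, ih]

lemma three_GA : (3 : GA σ) = 0 := by
  have : (3 : ZMod 3) = 0 := by decide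
  have h2 := congrArg (algebraMap (ZMod 3) (GA σ)) this
  rwa [map_ofNat, map_zero] at h2

/-- `z i = y_i - 1`. -/
noncomputable def zz (i : σ) : GA σ := gr (Pi.single i 1) - 1

lemma zz_cube (i : σ) : (zz i : GA σ) ^ 3 = 0 := by
  have h1 : (gr (Pi.single i (1 : ZMod 3)) : GA σ) ^ 3 = 1 := by
    have : (gr (Pi.single i (1 : ZMod 3)) : GA σ) ^ 3 =
        gr (Pi.single i (1 : ZMod 3) + Pi.single i 1 + Pi.single i 1) := by
      rw [gr_add, gr_add]; ring
    rw [this, ← Pi.single_add, ← Pi.single_add]
    have h3 : (1 + 1 + 1 : ZMod 3) = 0 := by decide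
    rw [h3, Pi.single_zero, gr_zero]
  have : (zz i : GA σ) ^ 3 = (gr (Pi.single i (1 : ZMod 3)) : GA σ) ^ 3 - 1 -
      3 * (gr (Pi.single i (1 : ZMod 3)) ^ 2 - gr (Pi.single i (1 : ZMod 3))) := by
    rw [zz]; ring
  rw [this, h1, three_GA]; ring

/-- The evaluation of polynomials at `z`. -/
noncomputable def ev (σ : Type*) [Fintype σ] [DecidableEq σ] :
    MvPolynomial σ (ZMod 3) →ₐ[ZMod 3] GA σ :=
  aeval (fun i => zz i)

/-- The ideal generated by the `z i`, `i ∈ s`. -/
noncomputable def mm (s : Finset σ) : Ideal (GA σ) := Ideal.span ((fun i => zz i) '' (s : Set σ))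

lemma mm_pow (s : Finset σ) : (mm s) ^ (2 * s.card + 1) = 0 := by
  induction s using Finset.induction_on with
  | empty => simp [mm]
  | insert a s ha ih =>
    have h1 : mm (insert a s) = Ideal.span {zz a} + mm s := by
      rw [mm, mm, Finset.coe_insert, Set.image_insert_eq, Ideal.span_insert, Submodule.add_eq_sup]
    rw [h1, add_pow]
    refine Finset.sum_eq_zero fun k hk => ?_
    rw [Finset.mem_range] at hk
    rw [Finset.card_insert_of_notMem ha] at hk ⊢
    by_cases h3 : 3 ≤ k
    · have : (Ideal.span {(zz a : GA σ)}) ^ k = 0 := by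
        rw [Ideal.span_singleton_pow, ← Nat.sub_add_cancel h3, pow_add, zz_cube, mul_zero]
        simp
      rw [this, zero_mul, zero_mul]
    · have h4 : 2 * s.card + 1 ≤ 2 * (s.card + 1) + 1 - k := by omega
      have : (mm s) ^ (2 * (s.card + 1) + 1 - k) = 0 := by
        rw [← Nat.sub_add_cancel h4, pow_add, ih, mul_zero]
      rw [this, mul_zero, zero_mul]

lemma lin_add {K : Type*} [Field K] (e f : σ → K) : lin (e + f) = lin e + lin f := by
  simp only [lin, Pi.add_apply, map_add, add_mul, Finset.sum_add_distrib]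

lemma lin_single {K : Type*} [Field K] (i : σ) : lin (Pi.single i (1 : K)) = X i := by
  rw [lin, Finset.sum_eq_single i]
  · simp
  · intro j _ hj; simp [hj]
  · simp

lemma ev_lin_mem (e : σ → ZMod 3) : ev σ (lin e) ∈ mm (Finset.univ : Finset σ) := by
  rw [lin, map_sum]
  refine Submodule.sum_mem _ fun i _ => ?_
  rw [map_mul]
  refine Ideal.mul_mem_left _ _ ?_
  rw [ev, aeval_X]
  exact Ideal.subset_span ⟨i, by simp, rfl⟩

lemma gr_sub_one_sub_mem (e : σ → ZMod 3) :
    gr e - 1 - ev σ (lin e) ∈ (mm (Finset.univ : Finset σ)) ^ 2 := by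
  have hmem : ∀ e : σ → ZMod 3, gr e - 1 - ev σ (lin e) ∈ (mm (Finset.univ : Finset σ)) ^ 2 →
      gr e - 1 ∈ mm (Finset.univ : Finset σ) := by
    intro e he
    have h1 := Ideal.pow_le_self (two_ne_zero) he
    have h2 := Submodule.add_mem _ h1 (ev_lin_mem e)
    rwa [sub_add_cancel] at h2
  let M : AddSubmonoid (σ → ZMod 3) :=
    { carrier := {e | gr e - 1 - ev σ (lin e) ∈ (mm (Finset.univ : Finset σ)) ^ 2}
      zero_mem' := by
        have : lin (0 : σ → ZMod 3) = 0 := by simp [lin]
        simp [gr_zero, this]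
      add_mem' := by
        intro a b ha hb
        have h1 : gr (a + b) - 1 - ev σ (lin (a + b)) = (gr a - 1) * (gr b - 1) +
            (gr a - 1 - ev σ (lin a)) + (gr b - 1 - ev σ (lin b)) := by
          rw [gr_add, lin_add, map_add]; ring
        show gr (a + b) - 1 - ev σ (lin (a + b)) ∈ (mm (Finset.univ : Finset σ)) ^ 2
        rw [h1]
        refine Submodule.add_mem _ (Submodule.add_mem _ ?_ ha) hb
        rw [pow_two]
        exact Ideal.mul_mem_mul (hmem a ha) (hmem b hb) }
  have hM : ∀ i : σ, Pi.single i (1 : ZMod 3) ∈ M := by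
    intro i
    show gr (Pi.single i (1 : ZMod 3)) - 1 - ev σ (lin (Pi.single i (1 : ZMod 3))) ∈
      (mm (Finset.univ : Finset σ)) ^ 2
    rw [lin_single, ev, aeval_X, zz]
    simp
  have he : e = ∑ i, (e i).val • Pi.single i (1 : ZMod 3) := by
    funext k
    rw [Finset.sum_apply, Finset.sum_eq_single k]
    · simp
    · intro j _ hj; simp [hj.symm]
    · simp
  have : e ∈ M := by
    rw [he]
    exact sum_mem fun i _ => nsmul_mem (hM i) _
  exact this

lemma gr_sub_one_mem (e : σ → ZMod 3) : gr e - 1 ∈ mm (Finset.univ : Finset σ) := by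
  have h1 := Ideal.pow_le_self (two_ne_zero) (gr_sub_one_sub_mem e)
  have h2 := Submodule.add_mem _ h1 (ev_lin_mem e)
  rwa [sub_add_cancel] at h2

variable {ι : Type*} [DecidableEq ι]

lemma prod_diff_mem (e : ι → σ → ZMod 3) (T : Finset ι) :
    ∏ j ∈ T, (gr (e j) - 1) ∈ (mm (Finset.univ : Finset σ)) ^ T.card ∧
    ev σ (∏ j ∈ T, lin (e j)) ∈ (mm (Finset.univ : Finset σ)) ^ T.card ∧
    ∏ j ∈ T, (gr (e j) - 1) - ev σ (∏ j ∈ T, lin (e j)) ∈
      (mm (Finset.univ : Finset σ)) ^ (T.card + 1) := by
  induction T using Finset.induction_on with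
  | empty => simp
  | insert a T ha ih =>
    obtain ⟨h1, h2, h3⟩ := ih
    rw [Finset.prod_insert ha, Finset.prod_insert ha, Finset.card_insert_of_notMem ha, map_mul]
    refine ⟨?_, ?_, ?_⟩
    · rw [pow_succ']
      exact Ideal.mul_mem_mul (gr_sub_one_mem _) h1
    · rw [pow_succ']
      exact Ideal.mul_mem_mul (ev_lin_mem _) h2
    · have : (gr (e a) - 1) * ∏ j ∈ T, (gr (e j) - 1) -
          ev σ (lin (e a)) * ev σ (∏ j ∈ T, lin (e j)) =
          (∏ j ∈ T, (gr (e j) - 1)) * (gr (e a) - 1 - ev σ (lin (e a))) +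
          (∏ j ∈ T, (gr (e j) - 1) - ev σ (∏ j ∈ T, lin (e j))) * ev σ (lin (e a)) := by ring
      rw [this]
      refine Submodule.add_mem _ ?_ ?_
      · have : T.card + 1 + 1 = T.card + 2 := rfl
        rw [this, pow_add]
        exact Ideal.mul_mem_mul h1 (gr_sub_one_sub_mem _)
      · rw [pow_succ]
        exact Ideal.mul_mem_mul h3 (ev_lin_mem _)

lemma ev_prod_eq (e : ι → σ → ZMod 3) (T : Finset ι) (hT : T.card = 2 * Fintype.card σ) :
    ev σ (∏ j ∈ T, lin (e j)) = ∏ j ∈ T, (gr (e j) - 1) := by
  have h := (prod_diff_mem e T).2.2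
  rw [hT, ← Finset.card_univ, mm_pow] at h
  have h2 := (Submodule.mem_bot (GA σ)).1 h
  exact (sub_eq_zero.1 h2).symm

/-- The exponent vector `(2, …, 2)`. -/
noncomputable def two (σ : Type*) [Fintype σ] : σ →₀ ℕ :=
  Finsupp.equivFunOnFinite.symm (fun _ => 2)

lemma ev_top (p : MvPolynomial σ (ZMod 3)) (hp : p.IsHomogeneous (2 * Fintype.card σ)) :
    ev σ p = coeff (two σ) p • ∏ i, zz i ^ 2 := by
  conv_lhs => rw [p.as_sum]
  rw [map_sum]
  have hmon : ∀ (m : σ →₀ ℕ) (a : ZMod 3), ev σ (monomial m a) = a • ∏ i, zz i ^ (m i) := by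
    intro m a
    rw [ev, aeval_monomial, Algebra.smul_def]
    congr 1
    exact Finsupp.prod_fintype _ _ (fun i => pow_zero _)
  rw [Finset.sum_eq_single (two σ)]
  · rw [hmon]; rfl
  · intro m hm hne
    rw [hmon]
    have hdeg : ∑ i, m i = 2 * Fintype.card σ := by
      have := hp (MvPolynomial.mem_support_iff.1 hm)
      rw [← this, Finsupp.weight_apply]
      rw [Finsupp.sum_fintype _ _ (by simp)]
      simp
    obtain ⟨i, hi⟩ : ∃ i, 3 ≤ m i := by
      by_contra hcon
      push Not at hcon
      apply hne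
      ext i
      have hle : ∀ j ∈ (Finset.univ : Finset σ), m j ≤ 2 := fun j _ => by
        have := hcon j; omega
      have hsum : ∑ j : σ, m j = ∑ j : σ, 2 := by
        rw [hdeg]; simp [mul_comm]
      exact (Finset.sum_eq_sum_iff_of_le hle).1 hsum i (Finset.mem_univ i)
    rw [← Finset.mul_prod_erase Finset.univ _ (Finset.mem_univ i),
      ← Nat.sub_add_cancel hi, pow_add, zz_cube, mul_zero, zero_mul, smul_zero]
  · intro hm
    rw [MvPolynomial.notMem_support_iff.1 hm]
    simp

lemma prod_zz_sq : (∏ i : σ, (zz i : GA σ) ^ 2) = ∑ v : σ → ZMod 3, gr v := by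
  have h1 : ∀ i : σ, (zz i : GA σ) ^ 2 = ∑ a : ZMod 3, gr (Pi.single i a) := by
    intro i
    have h2 : (Finset.univ : Finset (ZMod 3)) = {0, 1, 2} := by decide
    have h3 : (gr (Pi.single i (2 : ZMod 3)) : GA σ) = gr (Pi.single i 1) ^ 2 := by
      have : (2 : ZMod 3) = 1 + 1 := by decide
      rw [this, Pi.single_add, gr_add]; ring
    rw [h2, Finset.sum_insert (by decide), Finset.sum_insert (by decide), Finset.sum_singleton,
      h3, Pi.single_zero, gr_zero, zz]
    linear_combination (-(gr (Pi.single i (1 : ZMod 3)))) * (three_GA (σ := σ))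
  simp only [h1]
  rw [Finset.prod_univ_sum, Fintype.piFinset_univ]
  refine Finset.sum_congr rfl fun v _ => ?_
  rw [← gr_sum]
  congr 1
  exact Finset.univ_sum_single v

/-- The subset sums of the family `e` over `J`. -/
def Sums (J : Finset ι) (e : ι → σ → ZMod 3) : Set (σ → ZMod 3) :=
  {v | ∃ T : Finset ι, T ⊆ J ∧ ∑ j ∈ T, e j = v}

/-- The elements of the group algebra supported on subset sums. -/
noncomputable def supp (J : Finset ι) (e : ι → σ → ZMod 3) : Submodule (ZMod 3) (GA σ) :=
  Submodule.span (ZMod 3) (gr '' (Sums J e))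

lemma prod_sub_one_mem (J : Finset ι) (e : ι → σ → ZMod 3) (T : Finset ι) (hT : T ⊆ J) :
    ∏ j ∈ T, (gr (e j) - 1) ∈ supp J e := by
  simp only [sub_eq_add_neg]
  rw [Finset.prod_add]
  refine Submodule.sum_mem _ fun t ht => ?_
  rw [Finset.mem_powerset] at ht
  rw [← gr_sum, Finset.prod_const]
  have : gr (∑ a ∈ t, e a) * (-1 : GA σ) ^ (T \ t).card =
      ((-1 : ZMod 3) ^ (T \ t).card) • gr (∑ a ∈ t, e a) := by
    rw [Algebra.smul_def, map_pow, map_neg, map_one, mul_comm]
  rw [this]
  exact Submodule.smul_mem _ _ (Submodule.subset_span ⟨_, ⟨t, ht.trans hT, rfl⟩, rfl⟩)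

lemma mem_supp (J : Finset ι) (e : ι → σ → ZMod 3) {f : GA σ} (hf : f ∈ supp J e)
    {v : σ → ZMod 3} (hv : v ∉ Sums J e) : f.coeff v = 0 := by
  induction hf using Submodule.span_induction with
  | mem x hx =>
    obtain ⟨w, hw, rfl⟩ := hx
    rw [gr, AddMonoidAlgebra.coeff_single, Finsupp.single_apply, if_neg]
    rintro rfl; exact hv hw
  | zero => rfl
  | add x y _ _ hx hy =>
    rw [AddMonoidAlgebra.coeff_add, Finsupp.add_apply, hx, hy, add_zero]
  | smul a x _ hx =>
    rw [AddMonoidAlgebra.coeff_smul, Finsupp.smul_apply, hx, smul_zero]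

lemma sum_gr_apply (v : σ → ZMod 3) : (∑ w : σ → ZMod 3, (gr w : GA σ)).coeff v = 1 := by
  rw [AddMonoidAlgebra.coeff_sum, Finsupp.finsetSum_apply, Finset.sum_eq_single v]
  · simp [gr]
  · intro w _ hw
    rw [gr, AddMonoidAlgebra.coeff_single, Finsupp.single_apply, if_neg hw]
  · simp

/-- The criterion: a polynomial with nonzero coefficient of `∏ X_i^2` whose degrees along all
lines are bounded by the weights of the family forces all vectors to be subset sums. -/
theorem criterion (J : Finset ι) (e : ι → σ → ZMod 3) (p : MvPolynomial σ (ZMod 3))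
    (hp : coeff (two σ) p ≠ 0)
    (hdeg : ∀ h : σ → ZMod 3,
      (shift h p).natDegree ≤ (J.filter (fun j => e j ⬝ᵥ h ≠ 0)).card)
    (v : σ → ZMod 3) : ∃ T : Finset ι, T ⊆ J ∧ ∑ j ∈ T, e j = v := by
  have h1 := exact_span J e p hdeg
  set N := 2 * Fintype.card σ with hN
  have h2 : Submodule.span (ZMod 3) (prods J e) ≤
      (supp J e).comap ((ev σ).toLinearMap.comp (homogeneousComponent N)) := by
    rw [Submodule.span_le]
    rintro _ ⟨T, hT, rfl⟩
    show ev σ (homogeneousComponent N (∏ j ∈ T, lin (e j))) ∈ supp J e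
    have hhom : (∏ j ∈ T, lin (e j)).IsHomogeneous T.card := by
      have := MvPolynomial.IsHomogeneous.prod T (fun j => lin (e j)) (fun _ => 1) (fun j _ => by
        rw [lin]
        refine MvPolynomial.IsHomogeneous.sum _ _ _ fun i _ => ?_
        simpa using (isHomogeneous_C σ (e j i)).mul (isHomogeneous_X (ZMod 3) i))
      simpa using this
    rw [homogeneousComponent_of_mem ((mem_homogeneousSubmodule _ _).2 hhom)]
    split_ifs with hc
    · rw [ev_prod_eq e T (by rw [← hN, hc])]
      exact prod_sub_one_mem J e T hT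
    · rw [map_zero]; exact Submodule.zero_mem _
  have h3 := h2 h1
  have h4 : ev σ (homogeneousComponent N p) ∈ supp J e := h3
  rw [ev_top _ (homogeneousComponent_isHomogeneous N p), coeff_homogeneousComponent,
    if_pos, prod_zz_sq] at h4
  · by_contra hv
    have h5 := mem_supp J e h4 (v := v) hv
    rw [AddMonoidAlgebra.coeff_smul, Finsupp.smul_apply, sum_gr_apply, smul_eq_mul, mul_one] at h5
    exact hp h5
  · rw [hN, Finsupp.degree_eq_sum]
    simp [two, mul_comm]

/-- A basis taken twice has nonzero top coefficient. -/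
lemma coeff_doubled (S : (σ → ZMod 3) ≃ₗ[ZMod 3] (σ → ZMod 3)) :
    coeff (two σ) (∏ jk : σ × Fin 2, lin (S (Pi.single jk.1 1))) ≠ 0 := by
  set P : MvPolynomial σ (ZMod 3) := ∏ jk : σ × Fin 2, lin (S (Pi.single jk.1 1)) with hP
  have hhom : P.IsHomogeneous (2 * Fintype.card σ) := by
    have := MvPolynomial.IsHomogeneous.prod (Finset.univ : Finset (σ × Fin 2))
      (fun jk => lin (S (Pi.single jk.1 1))) (fun _ => 1) (fun j _ => by
        rw [lin]
        refine MvPolynomial.IsHomogeneous.sum _ _ _ fun i _ => ?_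
        simpa using (isHomogeneous_C σ _).mul (isHomogeneous_X (ZMod 3) i))
    have hc : ∑ _jk : σ × Fin 2, 1 = 2 * Fintype.card σ := by simp [mul_comm]
    rwa [hc] at this
  have h1 : ev σ P = ∏ jk : σ × Fin 2, (gr (S (Pi.single jk.1 1)) - 1) := by
    rw [hP]
    exact ev_prod_eq (fun jk : σ × Fin 2 => S (Pi.single jk.1 1)) Finset.univ
      (by simp [mul_comm])
  -- the automorphism of the group algebra induced by `S`
  let φ : GA σ →+* GA σ := AddMonoidAlgebra.mapDomainRingHom (ZMod 3) S.toAddMonoidHom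
  have hφ : ∀ v : σ → ZMod 3, φ (gr v) = gr (S v) := fun v => by
    simp [φ, gr]
  have h2 : (∏ jk : σ × Fin 2, (gr (S (Pi.single jk.1 1)) - 1) : GA σ) =
      φ (∏ i : σ, (zz i : GA σ) ^ 2) := by
    rw [map_prod, Fintype.prod_prod_type]
    refine Finset.prod_congr rfl fun i _ => ?_
    rw [map_pow, zz, map_sub, map_one, hφ]
    dsimp only
    rw [Finset.prod_const, Finset.card_univ, Fintype.card_fin]
  have h3 : φ (∏ i : σ, (zz i : GA σ) ^ 2) = ∑ v : σ → ZMod 3, gr v := by
    rw [prod_zz_sq, map_sum]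
    simp only [hφ]
    exact Equiv.sum_comp S.toEquiv (fun v => (gr v : GA σ))
  intro h0
  have h4 := ev_top P hhom
  rw [h0, zero_smul, h1, h2, h3] at h4
  have h5 := sum_gr_apply (0 : σ → ZMod 3)
  rw [h4] at h5
  exact absurd h5 (by simp)

end Group

/-- The number of the `n` generating vectors `T e_j` of the cube `T {0,1}^n` on which the linear
functional `x ↦ x ⬝ᵥ h` does not vanish. -/
def weight {n : ℕ} (T : (Fin n → ZMod 3) ≃ₗ[ZMod 3] (Fin n → ZMod 3)) (h : Fin n → ZMod 3) : ℕ :=
  (Finset.univ.filter fun j : Fin n => T (Pi.single j 1) ⬝ᵥ h ≠ 0).card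

/-- The coefficient of `X_1^2 ⋯ X_n^2` in the product of the `2 n` linear forms
`∑_i (L j k)_i X_i`. -/
noncomputable def topCoeff {n : ℕ} (L : Fin n × Fin 2 → Fin n → ZMod 3) : ZMod 3 :=
  MvPolynomial.coeff (Finsupp.equivFunOnFinite.symm fun _ => 2)
    (∏ jk, ∑ i, MvPolynomial.C (L jk i) * MvPolynomial.X i)

/-- **Weight comparison theorem.** Let `L` be a basis of `F_3^n` taken twice, or more generally a
family of `2 n` vectors with nonzero top coefficient.  If every linear functional is nonzero on at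
least as many of the generating vectors of the cubes `A_1, …, A_m` as of the vectors of `L`, then
`A_1 + … + A_m = F_3^n`. -/
theorem result (n m : ℕ) (T : Fin m → ((Fin n → ZMod 3) ≃ₗ[ZMod 3] (Fin n → ZMod 3)))
    (L : Fin n × Fin 2 → Fin n → ZMod 3)
    (hL : (∃ S : (Fin n → ZMod 3) ≃ₗ[ZMod 3] (Fin n → ZMod 3),
        ∀ j k, L (j, k) = S (Pi.single j 1)) ∨ topCoeff L ≠ 0)
    (hdom : ∀ h : Fin n → ZMod 3,
      (Finset.univ.filter fun jk => L jk ⬝ᵥ h ≠ 0).card ≤ ∑ i, weight (T i) h) :
    ∀ v : Fin n → ZMod 3, ∃ x : Fin m → Fin n → ZMod 3,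
      (∀ i j, x i j = 0 ∨ x i j = 1) ∧ ∑ i, T i (x i) = v := by
  have htop : coeff (two (Fin n)) (∏ jk, lin (L jk)) ≠ 0 := by
    rcases hL with ⟨S, hS⟩ | h
    · have : (∏ jk, lin (L jk)) = ∏ jk : Fin n × Fin 2, lin (S (Pi.single jk.1 1)) :=
        Finset.prod_congr rfl fun jk _ => by rw [← hS jk.1 jk.2]
      rw [this]
      exact coeff_doubled S
    · exact h
  intro v
  obtain ⟨U, -, hU⟩ := criterion (Finset.univ : Finset (Fin m × Fin n))
    (fun ij => T ij.1 (Pi.single ij.2 1)) (∏ jk, lin (L jk)) htop (fun h => by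
      refine (natDegree_shift_prod h L Finset.univ).trans ((hdom h).trans ?_)
      rw [Finset.card_filter, Fintype.sum_prod_type]
      refine Finset.sum_le_sum fun i _ => ?_
      rw [weight, Finset.card_filter]) v
  refine ⟨fun i j => if (i, j) ∈ U then 1 else 0, fun i j => ?_, ?_⟩
  · by_cases h : (i, j) ∈ U
    · right; simp [h]
    · left; simp [h]
  · rw [← hU]
    have h1 : ∀ i, T i (fun j => if (i, j) ∈ U then (1 : ZMod 3) else 0) =
        ∑ j, if (i, j) ∈ U then T i (Pi.single j 1) else 0 := by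
      intro i
      have h2 : (fun j => if (i, j) ∈ U then (1 : ZMod 3) else 0) =
          ∑ j, if (i, j) ∈ U then Pi.single j (1 : ZMod 3) else 0 := by
        funext k
        rw [Finset.sum_apply, Finset.sum_eq_single k]
        · by_cases hk : (i, k) ∈ U <;> simp [hk]
        · intro j _ hj
          by_cases hk : (i, j) ∈ U <;> simp [hk, hj.symm]
        · simp
      rw [h2, map_sum]
      refine Finset.sum_congr rfl fun j _ => ?_
      split_ifs <;> simp
    simp only [h1]
    rw [← Fintype.sum_prod_type' (f := fun i j => if (i, j) ∈ U then T i (Pi.single j 1) else 0)]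
    simp

end Pool.Agent.Results.MP_d9da44_co.WeightComparison
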